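import Pool.Agent.R745.CDX.Defs

/-! Project CDX (helper745), piece XONE by helper780: exact counts at one coordinate. -/

set_option linter.unusedSectionVars false

namespace R745CDX

open Finset H825CD

namespace XOne

variable {ι : Type} [Fintype ι] [DecidableEq ι] {Q : ℕ}

lemma mem_iff {A B : Finset (ι → Fin (Q + 1))} {i : ι} {y : Fin (Q + 1)} (hy : y ∈ com A B i)
    {a : ι → Fin (Q + 1)} (ha : a ∈ A) :
    a i ≠ y ↔ a i ∈ (com A B i \ {y}) ∪ pur A B i := by
  have hu : a i ∈ used A i := Finset.mem_image_of_mem _ ha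
  have hyB : y ∈ used B i := (Finset.mem_inter.1 hy).2
  unfold com pur
  rw [Finset.mem_union, Finset.mem_sdiff, Finset.mem_inter, Finset.mem_sdiff,
    Finset.mem_singleton]
  constructor
  · intro h
    by_cases hB : a i ∈ used B i
    · exact Or.inl ⟨⟨hu, hB⟩, h⟩
    · exact Or.inr ⟨hu, hB⟩
  · rintro (⟨_, h⟩ | ⟨_, h⟩)
    · exact h
    · intro h2
      rw [h2] at h
      exact h hyB

lemma filter_eq {A B : Finset (ι → Fin (Q + 1))} {i : ι} {y : Fin (Q + 1)}
    (hy : y ∈ com A B i) :
    A.filter (fun a => a i ≠ y) = A.filter (fun a => a i ∈ (com A B i \ {y}) ∪ pur A B i) :=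
  Finset.filter_congr fun _ ha => mem_iff hy ha

lemma cnt_union (A : Finset (ι → Fin (Q + 1))) (i : ι) (P R : Finset (Fin (Q + 1)))
    (h : Disjoint P R) : cnt A i (P ∪ R) = cnt A i P + cnt A i R := by
  unfold cnt
  rw [← Finset.card_union_of_disjoint]
  · congr 1
    ext a
    simp only [Finset.mem_filter, Finset.mem_union]
    tauto
  · rw [Finset.disjoint_left]
    intro a h1 h2
    exact Finset.disjoint_left.1 h (Finset.mem_filter.1 h1).2 (Finset.mem_filter.1 h2).2

lemma disj (A B : Finset (ι → Fin (Q + 1))) (i : ι) (y : Fin (Q + 1)) :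
    Disjoint (com A B i \ {y}) (pur A B i) := by
  rw [Finset.disjoint_left]
  intro x hx hx'
  exact (Finset.mem_sdiff.1 hx').2 (Finset.mem_inter.1 (Finset.mem_sdiff.1 hx).1).2

lemma pur_ge {A B : Finset (ι → Fin (Q + 1))} {i : ι}
    (hclo : ∀ a ∈ A, a i ∈ pur A B i → ∀ u ∈ pur A B i, Function.update a i u ∈ A) :
    (pur A B i).card * pcnt A i (pur A B i) ≤ cnt A i (pur A B i) := by
  unfold cnt pcnt
  rw [← Finset.card_product]
  refine Finset.card_le_card_of_injOn (fun p => Function.update p.2 i p.1) ?_ ?_
  · rintro ⟨u, e⟩ hp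
    have hp' := Finset.mem_product.1 (Finset.mem_coe.1 hp)
    obtain ⟨a, ha, he⟩ := Finset.mem_image.1 hp'.2
    have ha' := Finset.mem_filter.1 ha
    refine Finset.mem_coe.2 (Finset.mem_filter.2 ?_)
    have he2 : er i a = e := he
    have h1 : Function.update e i u = Function.update a i u := by
      rw [← he2]
      unfold er
      exact Function.update_idem _ _ _
    have hu : u ∈ pur A B i := hp'.1
    beta_reduce
    rw [h1]
    refine ⟨hclo a ha'.1 ha'.2 u hu, ?_⟩
    rw [Function.update_self]
    exact hu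
  · rintro ⟨u, e⟩ hp ⟨u', e'⟩ hp' heq
    have hp1 := Finset.mem_product.1 (Finset.mem_coe.1 hp)
    have hp1' := Finset.mem_product.1 (Finset.mem_coe.1 hp')
    obtain ⟨a, _, he⟩ := Finset.mem_image.1 hp1.2
    obtain ⟨a', _, he'⟩ := Finset.mem_image.1 hp1'.2
    beta_reduce at heq
    have hu : u = u' := by
      have := congrFun heq i
      rwa [Function.update_self, Function.update_self] at this
    have hee : e = e' := by
      funext k
      by_cases hk : k = i
      · subst hk
        have h1 : e k = 0 := by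
          change (u, e).2 k = 0
          rw [← he]; unfold er; exact Function.update_self _ _ _
        have h2 : e' k = 0 := by
          change (u', e').2 k = 0
          rw [← he']; unfold er; exact Function.update_self _ _ _
        rw [h1, h2]
      · have := congrFun heq k
        rwa [Function.update_of_ne hk, Function.update_of_ne hk] at this
    rw [hu, hee]

end XOne

open XOne in
theorem tX_one (h1 : S_split) (h2 : S_struct) (h3 : X_clo) : X_one := by
  intro ι _ _ Q S δ M A B hctx i hi y hy
  obtain ⟨s1, s2, s3, s4, s5⟩ := h2 ι Q δ A B hctx.dist i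
  have hdist' : ∀ b ∈ B, ∀ a ∈ A, hammingDist b a = δ := by
    intro b hb a ha
    rw [hammingDist_comm]
    exact hctx.dist a ha b hb
  obtain ⟨t1, t2, t3, t4, t5⟩ := h2 ι Q δ B A hdist' i
  have hnz : nz A i y = pcnt A i ((com A B i \ {y}) ∪ pur A B i) := by
    unfold nz pcnt
    rw [filter_eq hy]
  have hna : na A i y = cnt A i ((com A B i \ {y}) ∪ pur A B i) := by
    unfold na cnt
    rw [filter_eq hy]
  have e1 := s1 (com A B i \ {y}) Finset.sdiff_subset
  refine ⟨by rw [hnz, e1], ?_, ?_⟩
  · rw [hna, cnt_union A i _ _ (disj A B i y)]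
    congr 1
    exact le_antisymm s2 (pur_ge (fun a ha hai u hu => h3 ι Q S δ M A B hctx i hi a ha hai u hu))
  · have hyA : y ∈ used A i := (Finset.mem_inter.1 hy).1
    have hyB : y ∈ used B i := (Finset.mem_inter.1 hy).2
    have hdis : Disjoint ((com A B i \ {y}) ∪ pur A B i) ({y} ∪ pur B A i) := by
      rw [Finset.disjoint_left]
      intro x hx hx'
      rcases Finset.mem_union.1 hx with hx1 | hx1
      · have hxA : x ∈ used A i := (Finset.mem_inter.1 (Finset.mem_sdiff.1 hx1).1).1
        rcases Finset.mem_union.1 hx' with hx2 | hx2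
        · exact (Finset.mem_sdiff.1 hx1).2 hx2
        · exact (Finset.mem_sdiff.1 hx2).2 hxA
      · have hxA : x ∈ used A i := (Finset.mem_sdiff.1 hx1).1
        rcases Finset.mem_union.1 hx' with hx2 | hx2
        · rw [Finset.mem_singleton] at hx2
          rw [hx2] at hx1
          exact (Finset.mem_sdiff.1 hx1).2 hyB
        · exact (Finset.mem_sdiff.1 hx2).2 hxA
    have h4 := h1 ι Q S δ M A B hctx i hi _ _ hdis
    rw [← hnz] at h4
    have h5 := t1 {y} (Finset.singleton_subset_iff.2 (Finset.mem_inter.2 ⟨hyB, hyA⟩))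
    have h6 : cnt B i {y} = B.card - na B i y := by
      have h7 := Finset.card_filter_add_card_filter_not (s := B) (fun b => b i = y)
      have h8 : cnt B i {y} = (B.filter (fun b => b i = y)).card := by
        unfold cnt
        simp only [Finset.mem_singleton]
      have h9 : na B i y = (B.filter (fun b => ¬ b i = y)).card := rfl
      omega
    rw [h5, h6] at h4
    exact h4

end R745CDX
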